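import Mathlib
import Pool.Agent.Lib.H4I.Lune64

/-!
Hughes's question on collineation groups that fix a line of a finite projective plane and are
doubly transitive on the points of that line: a counterexample of order 64.
-/

set_option autoImplicit false

namespace Pool.Agent.Results.MP_fa71e0_co.NoElations64

/-- A collineation of a point-line geometry with points `P` and lines `L`: a permutation `g.1` of
the points together with a permutation `g.2` of the lines such that `p` is on `m` if and only if
`g.1 p` is on `g.2 m`. -/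
def IsCollineation {P L : Type} [Membership P L] (g : Equiv.Perm P × Equiv.Perm L) : Prop :=
  ∀ (p : P) (m : L), p ∈ m ↔ g.1 p ∈ g.2 m

/-- `σ` is an elation with centre `c` and axis `ℓ`: a collineation that fixes every point of `ℓ`
and every line through `c` (used for `c` on `ℓ`; the identity is allowed). -/
def IsElation {P L : Type} [Membership P L] (c : P) (ℓ : L)
    (σ : Equiv.Perm P × Equiv.Perm L) : Prop :=
  IsCollineation σ ∧ (∀ p : P, p ∈ ℓ → σ.1 p = p) ∧ (∀ m : L, c ∈ m → σ.2 m = m)

/-- The plane is `(c, ℓ)`-transitive: for every line `M ≠ ℓ` through `c` and all points `x`, `y`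
of `M` different from `c`, some elation with centre `c` and axis `ℓ` maps `x` to `y`. -/
def IsCLTransitive {P L : Type} [Membership P L] (c : P) (ℓ : L) : Prop :=
  ∀ M : L, M ≠ ℓ → c ∈ M → ∀ x y : P, x ∈ M → y ∈ M → x ≠ c → y ≠ c →
    ∃ σ : Equiv.Perm P × Equiv.Perm L, IsElation c ℓ σ ∧ σ.1 x = y

/-- The group `Γ` is doubly transitive on the points of the line `ℓ`: every pair of different
points of `ℓ` is mapped to every such pair by an element of `Γ`. -/
def IsDoublyTransitiveOn {P L : Type} [Membership P L]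
    (Γ : Subgroup (Equiv.Perm P × Equiv.Perm L)) (ℓ : L) : Prop :=
  ∀ a b c d : P, a ∈ ℓ → b ∈ ℓ → c ∈ ℓ → d ∈ ℓ → a ≠ b → c ≠ d →
    ∃ g ∈ Γ, g.1 a = c ∧ g.1 b = d

open Pool.Agent.H78Lune Pool.Agent.H4ILune

/-- There is a finite projective plane of order 64 with a line `ℓ` such that the group `Γ` of all
collineations fixing `ℓ` is doubly transitive on the points of `ℓ`, but the identity is the only
elation with axis `ℓ`, so that the plane is `(c, ℓ)`-transitive for no point `c` of `ℓ`. -/
theorem result :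
    ∃ (P L : Type) (_ : Membership P L) (_ : Configuration.ProjectivePlane P L)
      (_ : Finite P) (_ : Finite L) (ℓ : L) (Γ : Subgroup (Equiv.Perm P × Equiv.Perm L)),
      Configuration.ProjectivePlane.order P L = 64 ∧
      (∀ g : Equiv.Perm P × Equiv.Perm L, g ∈ Γ ↔ IsCollineation g ∧ g.2 ℓ = ℓ) ∧
      IsDoublyTransitiveOn Γ ℓ ∧
      (∀ c : P, c ∈ ℓ → ∀ σ : Equiv.Perm P × Equiv.Perm L, IsElation c ℓ σ → σ = 1) ∧
      (∀ c : P, c ∈ ℓ → ¬ IsCLTransitive c ℓ) := by
  obtain ⟨h2, h8, ⟨t, ht⟩, hcard⟩ := field8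
  have hel : ∀ c : Ln (GaloisField 2 3), c ∈ (o : Pt (GaloisField 2 3)) →
      ∀ σ : Equiv.Perm (Ln (GaloisField 2 3)) × Equiv.Perm (Pt (GaloisField 2 3)),
      IsElation c (o : Pt (GaloisField 2 3)) σ → σ = 1 := fun c hc σ h =>
    elation_id h2 h8 ht σ h.1 h.2.1 hc h.2.2
  refine ⟨Ln (GaloisField 2 3), Pt (GaloisField 2 3), inferInstance, plane h2 h8, inferInstance,
    inferInstance, o, grp o, order_eq h2 h8 hcard, fun g => Iff.rfl, ?_, hel, ?_⟩
  · intro a b c d ha hb hc hd hab hcd
    exact two_trans h2 h8 ha hb hc hd hab hcd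
  · intro c hc htr
    rcases mem_o h2 h8 hc with rfl | ⟨x, y, rfl⟩
    · obtain ⟨σ, h3, h4⟩ := htr .top (by intro h; cases h) trivial .lin (.vert 1 0) trivial trivial
        (by intro h; cases h) (fun h => zero_ne_one (Ln.vert.inj h).1.symm)
      rw [hel _ hc σ h3] at h4
      cases h4
    · obtain ⟨σ, h3, h4⟩ := htr (.inf x y) (by intro h; cases h) ⟨rfl, rfl⟩ .lin (.gen x y 1 0)
        trivial ⟨rfl, rfl⟩ (by intro h; cases h) (fun h => zero_ne_one (Ln.gen.inj h).2.2.1.symm)
      rw [hel _ hc σ h3] at h4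
      cases h4

end Pool.Agent.Results.MP_fa71e0_co.NoElations64
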